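import Pool.Agent.Lib.MP_f8d60a_co_h11.AllOne

/-!
The smallest constant `c` such that infinitely many `n` admit `r`-covering linear subspaces
`V ≤ 𝔽₂^n` with `|V| = (c + o(1)) 2^n / |H_n(r)|` is `1`, for every radius `r`.
-/

set_option autoImplicit false

namespace Pool.Agent.Results.MP_f8d60a_co.SmallestConstant

open Filter Topology

/-- The weight of a vector: the number of its nonzero coordinates. -/
def wt {n : ℕ} (x : Fin n → ZMod 2) : ℕ := (Finset.univ.filter fun i => x i ≠ 0).card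

/-- The Hamming ball `H_n(r)` of radius `r` about `0` in `𝔽₂^n`. -/
def ball (n r : ℕ) : Set (Fin n → ZMod 2) := {x | wt x ≤ r}

/-- `V` is `r`-covering: `V + H_n(r) = 𝔽₂^n`. -/
def IsCovering (n r : ℕ) (V : Submodule (ZMod 2) (Fin n → ZMod 2)) : Prop :=
  ∀ x, ∃ v ∈ V, ∃ h ∈ ball n r, x = v + h

/-- There are infinitely many `n` together with `r`-covering subspaces `V_n ≤ 𝔽₂^n` satisfying
`|V_n| = (c + o(1)) 2^n / |H_n(r)|` along the sequence. -/
def Attained (r : ℕ) (c : ℝ) : Prop :=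
  ∃ (n : ℕ → ℕ) (V : (j : ℕ) → Submodule (ZMod 2) (Fin (n j) → ZMod 2)) (ε : ℕ → ℝ),
    StrictMono n ∧ (∀ j, IsCovering (n j) r (V j)) ∧ Tendsto ε atTop (𝓝 0) ∧
      ∀ j, (Nat.card (V j) : ℝ) = (c + ε j) * (2 ^ n j / Nat.card (ball (n j) r))

lemma ball_eq (n r : ℕ) : ball n r = N8b55e67f.hammingBall n r := rfl

lemma isCovering_iff (n r : ℕ) (V : Submodule (ZMod 2) (Fin n → ZMod 2)) :
    IsCovering n r V ↔ N8b55e67f.IsCoveringSubspace n r V := by
  unfold IsCovering N8b55e67f.IsCoveringSubspace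
  rw [Set.eq_univ_iff_forall]
  refine forall_congr' fun x => ?_
  rw [Set.mem_add]
  constructor
  · rintro ⟨v, hv, h, hh, e⟩
    exact ⟨v, hv, h, hh, e.symm⟩
  · rintro ⟨v, hv, h, hh, e⟩
    exact ⟨v, hv, h, hh, e.symm⟩

lemma card_ball_pos (n r : ℕ) : 0 < Nat.card (ball n r) := by
  have : Nonempty (ball n r) := ⟨⟨0, by simp [ball, wt]⟩⟩
  exact Nat.card_pos

lemma lower {n r : ℕ} {V : Submodule (ZMod 2) (Fin n → ZMod 2)} (hV : IsCovering n r V) :
    (2 : ℝ) ^ n ≤ Nat.card V * Nat.card (ball n r) := by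
  have h1 : Nat.card (Fin n → ZMod 2) ≤ Nat.card V * Nat.card (ball n r) := by
    rw [← Nat.card_prod]
    refine Nat.card_le_card_of_surjective
      (fun x : V × ball n r => (x.1 : Fin n → ZMod 2) + x.2) ?_
    intro z
    obtain ⟨v, hv, h, hh, rfl⟩ := hV z
    exact ⟨(⟨v, hv⟩, ⟨h, hh⟩), rfl⟩
  have h2 : Nat.card (Fin n → ZMod 2) = 2 ^ n := by simp
  rw [h2] at h1
  exact_mod_cast h1

lemma upper (r : ℕ) {b : ℝ} (hb : 1 < b) : ∃ᶠ n in atTop,
    ∃ V : Submodule (ZMod 2) (Fin n → ZMod 2), IsCovering n r V ∧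
      (Nat.card V : ℝ) * Nat.card (ball n r) / 2 ^ n < b := by
  have h1 : liminf (fun n => N8b55e67f.minDensity n r) atTop < ENNReal.ofReal b := by
    have h2 := Pool.Agent.Lib.MP_f8d60a_co_h11.all_one_holds r
    unfold N8b55e67f.f at h2
    rw [h2]
    simpa using (ENNReal.ofReal_lt_ofReal_iff (by linarith)).2 hb
  have h2 := frequently_lt_of_liminf_lt (by isBoundedDefault) h1
  refine h2.mono fun n hn => ?_
  unfold N8b55e67f.minDensity at hn
  simp only [iInf_lt_iff] at hn
  obtain ⟨V, hV, hlt⟩ := hn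
  refine ⟨V, (isCovering_iff n r V).2 hV, ?_⟩
  have h3 := (ENNReal.lt_ofReal_iff_toReal_lt (ne_top_of_lt hlt)).1 hlt
  simpa [ball_eq] using h3

/-- For every radius `r`, the smallest constant `f(r)` such that there are infinitely many `n`
together with `r`-covering subspaces `V_n ≤ 𝔽₂^n` with `|V_n| = (f(r) + o(1)) 2^n / |H_n(r)|`
exists and equals `1`. -/
theorem result (r : ℕ) : IsLeast {c : ℝ | Attained r c} 1 := by
  constructor
  · have hfr : ∀ j : ℕ, ∃ᶠ n in atTop, ∃ V : Submodule (ZMod 2) (Fin n → ZMod 2),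
        IsCovering n r V ∧
          (Nat.card V : ℝ) * Nat.card (ball n r) / 2 ^ n < 1 + 1 / ((j : ℝ) + 1) := by
      intro j
      apply upper
      have : (0:ℝ) < 1 / ((j : ℝ) + 1) := by positivity
      linarith
    obtain ⟨n, hn, hV⟩ := extraction_forall_of_frequently hfr
    choose V hcov hlt using hV
    refine ⟨n, V, fun j => (Nat.card (V j) : ℝ) * Nat.card (ball (n j) r) / 2 ^ n j - 1, hn,
      hcov, ?_, ?_⟩
    · have hlim : Tendsto (fun j : ℕ => 1 / ((j : ℝ) + 1)) atTop (𝓝 0) :=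
        tendsto_one_div_add_atTop_nhds_zero_nat
      refine squeeze_zero (fun j => ?_) (fun j => ?_) hlim
      · have h := lower (hcov j)
        have h2 : (1 : ℝ) ≤ Nat.card (V j) * Nat.card (ball (n j) r) / 2 ^ n j := by
          rw [le_div_iff₀ (by positivity), one_mul]
          exact h
        linarith
      · linarith [hlt j]
    · intro j
      have hb : (0:ℝ) < Nat.card (ball (n j) r) := by exact_mod_cast card_ball_pos (n j) r
      field_simp
      ring
  · rintro c ⟨n, V, ε, _, hcov, hε, hcard⟩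
    have hlim : Tendsto (fun j => c + ε j) atTop (𝓝 c) := by
      simpa using hε.const_add c
    refine ge_of_tendsto' hlim fun j => ?_
    have hb : (0:ℝ) < Nat.card (ball (n j) r) := by exact_mod_cast card_ball_pos (n j) r
    have hp : (0:ℝ) < 2 ^ n j := by positivity
    have h := lower (hcov j)
    rw [hcard j] at h
    have h2 : (c + ε j) * (2 ^ n j / Nat.card (ball (n j) r)) * Nat.card (ball (n j) r) =
        (c + ε j) * 2 ^ n j := by
      field_simp
    rw [h2] at h
    by_contra hc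
    push Not at hc
    nlinarith

end Pool.Agent.Results.MP_f8d60a_co.SmallestConstant
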